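import Mathlib
import Pool.Agent.H590.NL.Stm

set_option autoImplicit false

/-!
# MP_85210c_gt in all dimensions: the analytic inequality from its parts (minimum principle)
-/

open MeasureTheory Filter Topology Set
open scoped BigOperators ENNReal
open H590NL

namespace Pool.Agent.H597.NL

theorem nrm_ee (n : ℕ) : Nrm (ee n) := by
  intro i j
  have h : ∀ k : Fin n, ee n k i * ee n k j = if k = i then (if i = j then (1:ℝ) else 0) else 0 := by
    intro k
    unfold ee
    by_cases h1 : k = i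
    · subst h1
      by_cases h2 : k = j
      · subst h2
        simp
      · simp [h2]
    · simp [h1]
  simp_rw [h]
  simp

/-- the analytic inequality -/
theorem CORE (h1 : S_MI) (h2 : H590PL.S_DINI) (h3 : S_CF) (h4 : S_CA) (h5 : S_DPF) (h6 : S_DPA)
    (h7 : S_P2V) (_h8 : S_OR) (h9 : S_NO) (h10 : S_GL) (h11 : S_IF) (h12 : S_IA) : S_CORE := by
  intro n κ _ p hp hp2 v hv
  obtain ⟨n1, n2, n3⟩ := h9 n κ
  obtain ⟨-, -, m3⟩ := h9 n (Fin n)
  obtain ⟨M, hdet, hnrm⟩ := n1 v hv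
  obtain ⟨w₀, hw₀⟩ : ∃ w₀ : κ → V n, w₀ = fun k => M.mulVec (v k) := ⟨_, rfl⟩
  rw [← hw₀] at hnrm
  have hprod : FF p w₀ one * AA p w₀ one = FF p v one * AA p v one := by
    obtain ⟨g1, g2⟩ := h10 n κ p hp hp2.le v one M hdet
    rw [← hw₀] at g1 g2
    rw [g1, g2]
    have : |M.det| ≠ 0 := abs_ne_zero.2 hdet
    field_simp
  rw [← hprod]
  have see : Spans (ee n) := m3 (ee n) (nrm_ee n)
  have posF : ∀ q, 1 < q → q ≤ 2 → ∀ w : κ → V n, Nrm w → 0 < FF q w one :=
    fun q hq hq2 w hw => (h11 n κ q hq hq2 w (n3 w hw)).2.1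
  have posA : ∀ q, 1 < q → q ≤ 2 → ∀ w : κ → V n, Nrm w → 0 < AA q w one :=
    fun q hq hq2 w hw => (h12 n κ q hq hq2 w (n3 w hw)).2.1
  have posFe : ∀ q, 1 < q → q ≤ 2 → 0 < FF q (ee n) one :=
    fun q hq hq2 => (h11 n (Fin n) q hq hq2 (ee n) see).2.1
  have posAe : ∀ q, 1 < q → q ≤ 2 → 0 < AA q (ee n) one :=
    fun q hq hq2 => (h12 n (Fin n) q hq hq2 (ee n) see).2.1
  have key := h2 (κ → V n) {w | Nrm w} p 2
    (fun q w => Real.log (FF q w one) + Real.log (AA q w one) - Real.log (FF q (ee n) one) -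
      Real.log (AA q (ee n) one)) n2 hp2 ?_ ?_ 0 ?_ w₀ hnrm
  · have e1 : 0 ≤ Real.log (FF p w₀ one) + Real.log (AA p w₀ one) - Real.log (FF p (ee n) one) -
      Real.log (AA p (ee n) one) := key
    have f1 := posF p hp hp2.le w₀ hnrm
    have f2 := posA p hp hp2.le w₀ hnrm
    have f3 := posFe p hp hp2.le
    have f4 := posAe p hp hp2.le
    have e2 : Real.log (FF p (ee n) one * AA p (ee n) one) ≤
        Real.log (FF p w₀ one * AA p w₀ one) := by
      rw [Real.log_mul f3.ne' f4.ne', Real.log_mul f1.ne' f2.ne']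
      linarith
    exact (Real.log_le_log_iff (mul_pos f3 f4) (mul_pos f1 f2)).1 e2
  · -- continuity
    have hm : MapsTo (fun q : ℝ × (κ → V n) => ((q.1, ee n) : ℝ × (Fin n → V n)))
        (Icc p 2 ×ˢ {w : κ → V n | Nrm w}) (Icc p 2 ×ˢ {w : Fin n → V n | Nrm w}) :=
      fun q hq => ⟨hq.1, nrm_ee n⟩
    have hc : ContinuousOn (fun q : ℝ × (κ → V n) => ((q.1, ee n) : ℝ × (Fin n → V n)))
        (Icc p 2 ×ˢ {w : κ → V n | Nrm w}) :=
      (continuous_fst.prodMk continuous_const).continuousOn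
    have c1 := (h3 n κ p hp hp2).log fun q hq =>
      (posF q.1 (hp.trans_le hq.1.1) hq.1.2 q.2 hq.2).ne'
    have c2 := (h4 n κ p hp hp2).log fun q hq =>
      (posA q.1 (hp.trans_le hq.1.1) hq.1.2 q.2 hq.2).ne'
    have c3 := (((h3 n (Fin n) p hp hp2).comp hc hm).log fun q hq =>
      (posFe q.1 (hp.trans_le hq.1.1) hq.1.2).ne')
    have c4 := (((h4 n (Fin n) p hp hp2).comp hc hm).log fun q hq =>
      (posAe q.1 (hp.trans_le hq.1.1) hq.1.2).ne')
    exact ((c1.add c2).sub c3).sub c4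
  · -- the derivative at a minimiser
    intro q hq w hw hmin
    have hq1 : 1 < q := hp.trans_le hq.1
    have hq2 : q < 2 := hq.2
    have hw' : Nrm w := hw
    have f1 := posF q hq1 hq2.le w hw'
    have f2 := posA q hq1 hq2.le w hw'
    have f3 := posFe q hq1 hq2.le
    have f4 := posAe q hq1 hq2.le
    have d1 := (h5 n κ q hq1 hq2 w (n3 w hw')).log f1.ne'
    have d2 := (h6 n κ q hq1 hq2 w (n3 w hw')).log f2.ne'
    have d3 := (h5 n (Fin n) q hq1 hq2 (ee n) see).log f3.ne'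
    have d4 := (h6 n (Fin n) q hq1 hq2 (ee n) see).log f4.ne'
    have hmi := h1 n κ q hq1 hq2 w hw' (fun w' hw'' => by
      have g1 := posF q hq1 hq2.le w' hw''
      have g2 := posA q hq1 hq2.le w' hw''
      have e1 : Real.log (FF q w one) + Real.log (AA q w one) - Real.log (FF q (ee n) one) -
        Real.log (AA q (ee n) one) ≤ Real.log (FF q w' one) + Real.log (AA q w' one) -
          Real.log (FF q (ee n) one) - Real.log (AA q (ee n) one) := hmin w' hw''
      have e2 : Real.log (FF q w one * AA q w one) ≤ Real.log (FF q w' one * AA q w' one) := by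
        rw [Real.log_mul f1.ne' f2.ne', Real.log_mul g1.ne' g2.ne']
        linarith
      exact (Real.log_le_log_iff (mul_pos f1 f2) (mul_pos g1 g2)).1 e2)
    refine ⟨_, ?_, (((d1.add d2).sub d3).sub d4).hasDerivWithinAt⟩
    have hq0 : 0 < 1 / q := by positivity
    have e : -(1 / q) * (∑ k, DFk q w k) / FF q w one + -(1 / q) * (∑ k, DAk q w k) / AA q w one -
        -(1 / q) * (∑ k, DFk q (ee n) k) / FF q (ee n) one -
          -(1 / q) * (∑ k, DAk q (ee n) k) / AA q (ee n) one =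
        (1 / q) * (((∑ k, DFk q (ee n) k) / FF q (ee n) one +
          (∑ k, DAk q (ee n) k) / AA q (ee n) one) -
          ((∑ k, DFk q w k) / FF q w one + (∑ k, DAk q w k) / AA q w one)) := by
      ring
    rw [e]
    exact mul_nonpos_of_nonneg_of_nonpos hq0.le (sub_nonpos.2 hmi)
  · intro w hw
    obtain ⟨e1, e2⟩ := h7 n κ w hw
    obtain ⟨e3, e4⟩ := h7 n (Fin n) (ee n) (nrm_ee n)
    show 0 ≤ Real.log (FF 2 w one) + Real.log (AA 2 w one) - Real.log (FF 2 (ee n) one) -
      Real.log (AA 2 (ee n) one)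
    rw [e1, e2, e3, e4]
    linarith

end Pool.Agent.H597.NL
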